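import Mathlib

/-! Greedy choice of few points of `ℤ/n` whose uniform measure has small Fourier coefficients. -/

set_option autoImplicit false
open Finset

namespace Pool.Agent.V5helper98.Cyc1

variable {n : ℕ} [NeZero n]

/-- `cos (2 π j x / n)` -/
noncomputable def c (j x : ZMod n) : ℝ := (ZMod.stdAddChar (x * j) : ℂ).re

lemma c_le (j x : ZMod n) : c j x ≤ 1 := by
  unfold c
  refine (Complex.re_le_norm _).trans ?_
  rw [ZMod.stdAddChar_apply, Circle.norm_coe]

lemma neg_le_c (j x : ZMod n) : -1 ≤ c j x := by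
  unfold c
  have := Complex.abs_re_le_norm (ZMod.stdAddChar (x * j) : ℂ)
  rw [ZMod.stdAddChar_apply, Circle.norm_coe] at this
  rw [ZMod.stdAddChar_apply]
  exact (abs_le.1 this).1

lemma sum_c (j : ZMod n) (hj : j ≠ 0) : ∑ x : ZMod n, c j x = 0 := by
  unfold c
  rw [← Complex.re_sum, AddChar.sum_mulShift j (ZMod.isPrimitive_stdAddChar n), if_neg hj]
  simp

/-- exponential of a number in `[-1,1]` against the chord -/
lemma exp_le_chord (l y : ℝ) (h1 : -1 ≤ y) (h2 : y ≤ 1) :
    Real.exp (l * y) ≤ Real.cosh l + y * Real.sinh l := by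
  have hc := convexOn_exp.2 (Set.mem_univ (-l)) (Set.mem_univ l)
    (show (0 : ℝ) ≤ (1 - y) / 2 by linarith) (show (0 : ℝ) ≤ (1 + y) / 2 by linarith) (by ring)
  simp only [smul_eq_mul] at hc
  have e1 : (1 - y) / 2 * -l + (1 + y) / 2 * l = l * y := by ring
  rw [e1] at hc
  refine hc.trans (le_of_eq ?_)
  rw [Real.cosh_eq, Real.sinh_eq]
  ring

lemma sum_exp_le (l : ℝ) (j : ZMod n) (hj : j ≠ 0) :
    ∑ x : ZMod n, Real.exp (l * c j x) ≤ n * Real.cosh l := by
  calc ∑ x : ZMod n, Real.exp (l * c j x)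
      ≤ ∑ x : ZMod n, (Real.cosh l + c j x * Real.sinh l) :=
        Finset.sum_le_sum fun x _ => exp_le_chord l _ (neg_le_c j x) (c_le j x)
    _ = n * Real.cosh l := by
        rw [Finset.sum_add_distrib, ← Finset.sum_mul, sum_c j hj, Finset.sum_const,
          Finset.card_univ, ZMod.card]
        simp

/-- the potential -/
noncomputable def Phi (l : ℝ) (L : List (ZMod n)) : ℝ :=
  ∑ j ∈ univ.filter (fun j : ZMod n => j ≠ 0),
    (Real.exp (l * (L.map (c j)).sum) + Real.exp (-l * (L.map (c j)).sum))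

lemma exists_cons (l : ℝ) (L : List (ZMod n)) :
    ∃ y : ZMod n, Phi l (y :: L) ≤ Real.cosh l * Phi l L := by
  have hne : (univ : Finset (ZMod n)).Nonempty := univ_nonempty
  have key : ∑ y : ZMod n, Phi l (y :: L) ≤ ∑ _y : ZMod n, Real.cosh l * Phi l L := by
    unfold Phi
    rw [Finset.sum_comm, Finset.sum_const, Finset.card_univ, ZMod.card, nsmul_eq_mul,
      Finset.mul_sum, Finset.mul_sum]
    refine Finset.sum_le_sum fun j hj => ?_
    have hj0 : j ≠ 0 := (Finset.mem_filter.1 hj).2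
    have e : ∀ y : ZMod n,
        Real.exp (l * ((y :: L).map (c j)).sum) + Real.exp (-l * ((y :: L).map (c j)).sum) =
        Real.exp (l * c j y) * Real.exp (l * (L.map (c j)).sum) +
          Real.exp (-l * c j y) * Real.exp (-l * (L.map (c j)).sum) := by
      intro y
      rw [List.map_cons, List.sum_cons, mul_add, mul_add, Real.exp_add, Real.exp_add]
    simp only [e]
    rw [Finset.sum_add_distrib, ← Finset.sum_mul, ← Finset.sum_mul]
    have h1 := sum_exp_le l j hj0
    have h2 := sum_exp_le (-l) j hj0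
    rw [Real.cosh_neg] at h2
    have h3 := mul_le_mul_of_nonneg_right h1 (Real.exp_pos (l * (L.map (c j)).sum)).le
    have h4 := mul_le_mul_of_nonneg_right h2 (Real.exp_pos (-l * (L.map (c j)).sum)).le
    calc _ ≤ _ := add_le_add h3 h4
      _ = _ := by ring
  obtain ⟨y, _, hy⟩ := Finset.exists_le_of_sum_le hne key
  exact ⟨y, hy⟩

lemma exists_list (l : ℝ) (m : ℕ) :
    ∃ L : List (ZMod n), L.length = m ∧ Phi l L ≤ 2 * n * Real.cosh l ^ m := by
  induction m with
  | zero =>
    refine ⟨[], rfl, ?_⟩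
    unfold Phi
    simp only [List.map_nil, List.sum_nil, mul_zero, Real.exp_zero, Finset.sum_const, pow_zero,
      mul_one, nsmul_eq_mul]
    have : ((univ.filter (fun j : ZMod n => j ≠ 0)).card : ℝ) ≤ n := by
      have := Finset.card_filter_le (univ : Finset (ZMod n)) (fun j : ZMod n => j ≠ 0)
      rw [Finset.card_univ, ZMod.card] at this
      exact_mod_cast this
    linarith
  | succ m ih =>
    obtain ⟨L, hL, hP⟩ := ih
    obtain ⟨y, hy⟩ := exists_cons l L
    refine ⟨y :: L, by simp [hL], hy.trans ?_⟩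
    calc Real.cosh l * Phi l L ≤ Real.cosh l * (2 * n * Real.cosh l ^ m) :=
          mul_le_mul_of_nonneg_left hP (Real.cosh_pos l).le
      _ = _ := by ring

/-- few points with small exponential sums -/
theorem exists_points (m : ℕ) :
    ∃ L : List (ZMod n), L.length = m ∧
      ∀ j : ZMod n, j ≠ 0 → |(L.map (c j)).sum| ≤ 2 * Real.log (2 * n) + m / 4 := by
  obtain ⟨L, hL, hP⟩ := exists_list (n := n) (1 / 2) m
  refine ⟨L, hL, fun j hj => ?_⟩
  set S := (L.map (c j)).sum with hS
  have hn : (0 : ℝ) < n := by exact_mod_cast Nat.pos_of_ne_zero (NeZero.ne n)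
  have h1 : Real.exp (1 / 2 * S) + Real.exp (-(1 / 2) * S) ≤ Phi (1 / 2) L := by
    unfold Phi
    exact Finset.single_le_sum (f := fun j : ZMod n =>
      Real.exp (1 / 2 * (L.map (c j)).sum) + Real.exp (-(1 / 2) * (L.map (c j)).sum))
      (fun i _ => by positivity) (Finset.mem_filter.2 ⟨mem_univ j, hj⟩)
  have h2 : Real.cosh (1 / 2) ^ m ≤ Real.exp ((m : ℝ) / 8) := by
    calc Real.cosh (1 / 2) ^ m ≤ Real.exp ((1 / 2) ^ 2 / 2) ^ m :=
          pow_le_pow_left₀ (Real.cosh_pos _).le (Real.cosh_le_exp_half_sq _) m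
      _ = Real.exp ((m : ℝ) / 8) := by
          rw [← Real.exp_nat_mul]
          congr 1
          ring
  have h3 : Real.exp (1 / 2 * |S|) ≤ 2 * n * Real.exp ((m : ℝ) / 8) := by
    have h4 : Real.exp (1 / 2 * |S|) ≤ Real.exp (1 / 2 * S) + Real.exp (-(1 / 2) * S) := by
      rcases abs_cases S with ⟨h, _⟩ | ⟨h, _⟩
      · rw [h]
        linarith [Real.exp_pos (-(1 / 2) * S)]
      · rw [h]
        have : 1 / 2 * -S = -(1 / 2) * S := by ring
        rw [this]
        linarith [Real.exp_pos (1 / 2 * S)]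
    calc _ ≤ _ := h4
      _ ≤ _ := h1
      _ ≤ _ := hP
      _ ≤ _ := mul_le_mul_of_nonneg_left h2 (by positivity)
  have h5 : 1 / 2 * |S| ≤ Real.log (2 * n) + m / 8 := by
    rw [← Real.log_exp (1 / 2 * |S|)]
    calc Real.log (Real.exp (1 / 2 * |S|)) ≤ Real.log (2 * n * Real.exp ((m : ℝ) / 8)) :=
          Real.log_le_log (Real.exp_pos _) h3
      _ = _ := by rw [Real.log_mul (by positivity) (Real.exp_pos _).ne', Real.log_exp]
  linarith

end Pool.Agent.V5helper98.Cyc1
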