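import Mathlib

/-! Convolution walks on the cycle `ℤ/n`: definitions. -/

set_option autoImplicit false
open Finset Filter Topology

namespace Pool.Agent.V5helper98.CycDefs

variable {n : ℕ} [NeZero n]

/-- `μ` is (the weight function of) a probability measure on `ℤ/n`. -/
def IsProb (μ : ZMod n → ℝ) : Prop := (∀ x, 0 ≤ μ x) ∧ ∑ x, μ x = 1

/-- The transition matrix `K(x,y) = μ(y - x)` of the convolution walk driven by `μ`. -/
def kernel (μ : ZMod n → ℝ) : Matrix (ZMod n) (ZMod n) ℝ := Matrix.of fun x y => μ (y - x)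

/-- The walk is ergodic: the support of `μ` is contained in no coset `a + H` of a proper subgroup. -/
def Ergodic (μ : ZMod n → ℝ) : Prop :=
  ∀ (H : AddSubgroup (ZMod n)) (a : ZMod n), H ≠ ⊤ → ∃ x, μ x ≠ 0 ∧ x - a ∉ H

/-- Total variation distance `½ ∑_y |K^t(0,y) - 1/n|` to the uniform distribution at time `t`. -/
noncomputable def tv (μ : ZMod n → ℝ) (t : ℕ) : ℝ := 1 / 2 * ∑ y, |(kernel μ ^ t) 0 y - 1 / n|

/-- Total variation mixing time `T_mix(ε) = min {t : TV distance at time t ≤ ε}`. -/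
noncomputable def tmix (μ : ZMod n → ℝ) (ε : ℝ) : ℕ := sInf {t : ℕ | tv μ t ≤ ε}

/-- The eigenvalue `∑_x μ(x) exp(2 π i j x / n)` of the walk. -/
noncomputable def hat (μ : ZMod n → ℝ) (j : ZMod n) : ℂ :=
  ∑ x, (μ x : ℂ) * Complex.exp (2 * Real.pi * Complex.I * (j.val * x.val) / n)

/-- The spectral gap `1 - max_{j ≠ 0} |hat μ j|`. -/
noncomputable def gap (μ : ZMod n → ℝ) : ℝ := 1 - ⨆ j : {j : ZMod n // j ≠ 0}, ‖hat μ j‖

/-- The relaxation time `1 / gap`. -/
noncomputable def trel (μ : ZMod n → ℝ) : ℝ := 1 / gap μ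

/-- The sequence of walks has a total variation cutoff. -/
def HasCutoff (n : ℕ → ℕ) [∀ k, NeZero (n k)] (μ : ∀ k, ZMod (n k) → ℝ) : Prop :=
  ∀ ε : ℝ, 0 < ε → ε < 1 / 2 →
    Tendsto (fun k => (tmix (μ k) ε : ℝ) / (tmix (μ k) (1 - ε) : ℝ)) atTop (𝓝 1)

end Pool.Agent.V5helper98.CycDefs
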