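import Pool.Agent.V5helper98.Cyc1
import Pool.Agent.V5helper98.CycDefs

/-! Convolution walks on the cycle: mixtures with the uniform distribution. -/

set_option autoImplicit false
open Finset Filter Topology

namespace Pool.Agent.V5helper98.Cyc2

open Pool.Agent.V5helper98.CycDefs Pool.Agent.V5helper98.Cyc1

variable {n : ℕ} [NeZero n]

lemma n_pos : (0 : ℝ) < n := by exact_mod_cast Nat.pos_of_ne_zero (NeZero.ne n)

/-- mixture with the uniform distribution -/
noncomputable def mix (e : ℝ) (μ : ZMod n → ℝ) : ZMod n → ℝ := fun x => (1 - e) * μ x + e / n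

lemma kernel_apply (μ : ZMod n → ℝ) (x y : ZMod n) : kernel μ x y = μ (y - x) := rfl

lemma sum_shift (μ : ZMod n → ℝ) (x : ZMod n) : ∑ y, μ (x - y) = ∑ y, μ y :=
  Fintype.sum_equiv (Equiv.subLeft x) _ _ fun _ => rfl

lemma sum_shift' (μ : ZMod n → ℝ) (x : ZMod n) : ∑ y, μ (y - x) = ∑ y, μ y :=
  Fintype.sum_equiv (Equiv.subRight x) _ _ fun _ => rfl

lemma pow_succ_apply (μ : ZMod n → ℝ) (t : ℕ) (x : ZMod n) :
    (kernel μ ^ (t + 1)) 0 x = ∑ y, (kernel μ ^ t) 0 y * μ (x - y) := by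
  rw [pow_succ, Matrix.mul_apply]
  rfl

lemma pow_nonneg' (μ : ZMod n → ℝ) (h : IsProb μ) (t : ℕ) (x : ZMod n) :
    0 ≤ (kernel μ ^ t) 0 x := by
  induction t generalizing x with
  | zero =>
    rw [pow_zero, Matrix.one_apply]
    split_ifs <;> norm_num
  | succ t ih =>
    rw [pow_succ_apply]
    exact Finset.sum_nonneg fun y _ => mul_nonneg (ih y) (h.1 _)

lemma sum_pow (μ : ZMod n → ℝ) (h : IsProb μ) (t : ℕ) :
    ∑ x, (kernel μ ^ t) 0 x = 1 := by
  induction t with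
  | zero =>
    simp [Matrix.one_apply]
  | succ t ih =>
    simp only [pow_succ_apply]
    rw [Finset.sum_comm]
    simp only [← Finset.mul_sum, sum_shift', h.2, mul_one, ih]

lemma mix_pow (e : ℝ) (μ : ZMod n → ℝ) (h : IsProb μ) (t : ℕ) (x : ZMod n) :
    (kernel (mix e μ) ^ t) 0 x = (1 - e) ^ t * (kernel μ ^ t) 0 x + (1 - (1 - e) ^ t) / n := by
  have hn : (n : ℝ) ≠ 0 := n_pos.ne'
  induction t generalizing x with
  | zero => simp
  | succ t ih =>
    rw [pow_succ_apply, pow_succ_apply]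
    have e1 : ∀ y, (kernel (mix e μ) ^ t) 0 y * mix e μ (x - y) =
        (1 - e) ^ (t + 1) * ((kernel μ ^ t) 0 y * μ (x - y)) +
        (1 - e) ^ t * (e / n) * (kernel μ ^ t) 0 y +
        (1 - (1 - e) ^ t) / n * (1 - e) * μ (x - y) + (1 - (1 - e) ^ t) / n * (e / n) := by
      intro y
      rw [ih y]
      unfold mix
      ring
    simp only [e1]
    rw [Finset.sum_add_distrib, Finset.sum_add_distrib, Finset.sum_add_distrib,
      ← Finset.mul_sum, ← Finset.mul_sum, ← Finset.mul_sum, sum_shift, h.2, sum_pow μ h,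
      Finset.sum_const, Finset.card_univ, ZMod.card]
    simp only [nsmul_eq_mul]
    field_simp
    ring

lemma tv_mix (e : ℝ) (he : e ≤ 1) (μ : ZMod n → ℝ) (h : IsProb μ) (t : ℕ) :
    tv (mix e μ) t = (1 - e) ^ t * tv μ t := by
  unfold tv
  have : ∀ y, |(kernel (mix e μ) ^ t) 0 y - 1 / n| =
      (1 - e) ^ t * |(kernel μ ^ t) 0 y - 1 / n| := by
    intro y
    rw [mix_pow e μ h]
    have e1 : (1 - e) ^ t * (kernel μ ^ t) 0 y + (1 - (1 - e) ^ t) / n - 1 / n =
        (1 - e) ^ t * ((kernel μ ^ t) 0 y - 1 / n) := by ring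
    rw [e1, abs_mul, abs_of_nonneg (pow_nonneg (by linarith) t)]
  simp only [this]
  rw [← Finset.mul_sum]
  ring

lemma tv_le_one (μ : ZMod n → ℝ) (h : IsProb μ) (t : ℕ) : tv μ t ≤ 1 := by
  unfold tv
  have h1 : ∑ y, |(kernel μ ^ t) 0 y - 1 / n| ≤ ∑ y : ZMod n, ((kernel μ ^ t) 0 y + 1 / n) := by
    refine Finset.sum_le_sum fun y _ => ?_
    have h2 := pow_nonneg' μ h t y
    have h3 : (0 : ℝ) ≤ 1 / n := by have := n_pos (n := n); positivity
    rw [abs_le]
    constructor <;> linarith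
  rw [Finset.sum_add_distrib, sum_pow μ h, Finset.sum_const, Finset.card_univ, ZMod.card] at h1
  have hn : (n : ℝ) ≠ 0 := n_pos.ne'
  rw [nsmul_eq_mul, mul_one_div_cancel hn] at h1
  linarith

lemma tv_nonneg (μ : ZMod n → ℝ) (t : ℕ) : 0 ≤ tv μ t := by
  unfold tv
  positivity

/-- the law at time `t` lives on a set of size at most `s ^ t` -/
lemma supp_card (μ : ZMod n → ℝ) (S : Finset (ZMod n)) (hS : ∀ x, x ∉ S → μ x = 0) (t : ℕ) :
    ∃ T : Finset (ZMod n), T.card ≤ S.card ^ t ∧ ∀ x, x ∉ T → (kernel μ ^ t) 0 x = 0 := by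
  classical
  induction t with
  | zero =>
    refine ⟨{0}, by simp, fun x hx => ?_⟩
    rw [pow_zero, Matrix.one_apply, if_neg]
    intro h
    exact hx (by simp [h])
  | succ t ih =>
    obtain ⟨T, hT, hT'⟩ := ih
    refine ⟨(T ×ˢ S).image fun p => p.1 + p.2, ?_, fun x hx => ?_⟩
    · refine Finset.card_image_le.trans ?_
      rw [Finset.card_product, _root_.pow_succ]
      exact Nat.mul_le_mul_right _ hT
    · rw [pow_succ_apply]
      refine Finset.sum_eq_zero fun y _ => ?_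
      by_cases hy : y ∈ T
      · have : x - y ∉ S := by
          intro h
          refine hx (Finset.mem_image.2 ⟨(y, x - y), Finset.mem_product.2 ⟨hy, h⟩, ?_⟩)
          simp
        rw [hS _ this, mul_zero]
      · rw [hT' y hy, zero_mul]

lemma tv_lower (μ : ZMod n → ℝ) (h : IsProb μ) (S : Finset (ZMod n))
    (hS : ∀ x, x ∉ S → μ x = 0) (t : ℕ) :
    1 - (S.card : ℝ) ^ t / n ≤ tv μ t := by
  classical
  obtain ⟨T, hT, hT'⟩ := supp_card μ S hS t
  have hn := n_pos (n := n)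
  have h1 : ∑ y ∈ T, (kernel μ ^ t) 0 y = 1 := by
    rw [← sum_pow μ h t]
    exact Finset.sum_subset (Finset.subset_univ _) fun x _ hx => hT' x hx
  have h2 : ∑ y ∈ T, ((kernel μ ^ t) 0 y - 1 / n) ≤ ∑ y ∈ T, |(kernel μ ^ t) 0 y - 1 / n| :=
    Finset.sum_le_sum fun y _ => le_abs_self _
  have h3 : ∑ y ∈ Tᶜ, (1 / n - (kernel μ ^ t) 0 y) ≤ ∑ y ∈ Tᶜ, |(kernel μ ^ t) 0 y - 1 / n| :=
    Finset.sum_le_sum fun y _ => by
      rw [abs_sub_comm]
      exact le_abs_self _
  have h4 : ∑ y ∈ Tᶜ, (1 / n - (kernel μ ^ t) 0 y) = ((n : ℝ) - T.card) / n := by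
    have : ∀ y ∈ Tᶜ, 1 / (n : ℝ) - (kernel μ ^ t) 0 y = 1 / n := by
      intro y hy
      rw [hT' y (Finset.mem_compl.1 hy), sub_zero]
    rw [Finset.sum_congr rfl this, Finset.sum_const, Finset.card_compl, ZMod.card, nsmul_eq_mul]
    have hc : T.card ≤ n := by
      have := Finset.card_le_univ T
      rwa [ZMod.card] at this
    rw [Nat.cast_sub hc]
    ring
  have h5 : ∑ y ∈ T, ((kernel μ ^ t) 0 y - 1 / n) = 1 - (T.card : ℝ) / n := by
    rw [Finset.sum_sub_distrib, h1, Finset.sum_const, nsmul_eq_mul]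
    ring
  have h6 : ∑ y, |(kernel μ ^ t) 0 y - 1 / n| =
      ∑ y ∈ T, |(kernel μ ^ t) 0 y - 1 / n| + ∑ y ∈ Tᶜ, |(kernel μ ^ t) 0 y - 1 / n| :=
    (Finset.sum_add_sum_compl T _).symm
  have h7 : (T.card : ℝ) / n ≤ (S.card : ℝ) ^ t / n := by
    have : (T.card : ℝ) ≤ (S.card : ℝ) ^ t := by exact_mod_cast hT
    exact div_le_div_of_nonneg_right this hn.le
  have h8 : ((n : ℝ) - T.card) / n = 1 - (T.card : ℝ) / n := by
    rw [sub_div, div_self hn.ne']
  unfold tv
  rw [h6]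
  linarith

lemma isProb_mix (e : ℝ) (h0 : 0 ≤ e) (h1 : e ≤ 1) (μ : ZMod n → ℝ) (h : IsProb μ) :
    IsProb (mix e μ) := by
  have hn := n_pos (n := n)
  refine ⟨fun x => ?_, ?_⟩
  · unfold mix
    have := h.1 x
    have h2 : 0 ≤ 1 - e := by linarith
    positivity
  · unfold mix
    rw [Finset.sum_add_distrib, ← Finset.mul_sum, h.2, Finset.sum_const, Finset.card_univ,
      ZMod.card, nsmul_eq_mul]
    field_simp
    ring

lemma ergodic_mix (e : ℝ) (h0 : 0 < e) (h1 : e ≤ 1) (μ : ZMod n → ℝ) (h : IsProb μ) :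
    Ergodic (mix e μ) := by
  have hn := n_pos (n := n)
  intro H a hH
  by_contra hcon
  push Not at hcon
  apply hH
  rw [eq_top_iff]
  intro x _
  have h2 : mix e μ (x + a) ≠ 0 := by
    unfold mix
    have := h.1 (x + a)
    have h2 : 0 ≤ 1 - e := by linarith
    positivity
  have := hcon (x + a) h2
  rwa [add_sub_cancel_right] at this

lemma char_eq (j x : ZMod n) :
    Complex.exp (2 * Real.pi * Complex.I * (j.val * x.val) / n) = ZMod.stdAddChar (x * j) := by
  have h := ZMod.stdAddChar_coe (N := n) ((j.val : ℤ) * (x.val : ℤ))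
  have e1 : (((j.val : ℤ) * (x.val : ℤ) : ℤ) : ZMod n) = x * j := by
    push_cast
    rw [ZMod.natCast_zmod_val, ZMod.natCast_zmod_val, mul_comm]
  rw [e1] at h
  rw [h]
  congr 1
  push_cast
  ring

lemma hat_eq (μ : ZMod n → ℝ) (j : ZMod n) :
    hat μ j = ∑ x, (μ x : ℂ) * ZMod.stdAddChar (x * j) := by
  unfold hat
  simp only [char_eq]

lemma hat_mix (e : ℝ) (μ : ZMod n → ℝ) (j : ZMod n) (hj : j ≠ 0) :
    hat (mix e μ) j = (1 - e : ℝ) * hat μ j := by
  rw [hat_eq, hat_eq, Finset.mul_sum]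
  have h0 : ∑ x : ZMod n, (ZMod.stdAddChar (x * j) : ℂ) = 0 := by
    rw [AddChar.sum_mulShift j (ZMod.isPrimitive_stdAddChar n), if_neg hj]
    simp
  have : ∀ x, ((mix e μ x : ℝ) : ℂ) * ZMod.stdAddChar (x * j) =
      (1 - e : ℝ) * ((μ x : ℂ) * ZMod.stdAddChar (x * j)) +
        ((e / n : ℝ) : ℂ) * ZMod.stdAddChar (x * j) := by
    intro x
    unfold mix
    push_cast
    ring
  simp only [this]
  rw [Finset.sum_add_distrib, ← Finset.mul_sum _ _ (((e / n : ℝ) : ℂ)), h0, mul_zero, add_zero]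

end Pool.Agent.V5helper98.Cyc2
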