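import Pool.Agent.V5helper98.Cyc2

/-! The base walk: few steps, constant spectral gap. -/

set_option autoImplicit false
open Finset Filter Topology

namespace Pool.Agent.V5helper98.Cyc3

open Pool.Agent.V5helper98.CycDefs Pool.Agent.V5helper98.Cyc1 Pool.Agent.V5helper98.Cyc2

variable {n : ℕ} [NeZero n]

/-- the uniform measure on the multiset `± x_i` -/
noncomputable def base {m : ℕ} (x : Fin m → ZMod n) : ZMod n → ℝ := fun z =>
  (∑ i, ((if z = x i then (1 : ℝ) else 0) + (if z = -x i then 1 else 0))) / (2 * m)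

lemma base_sum {m : ℕ} (x : Fin m → ZMod n) (f : ZMod n → ℂ) :
    ∑ z, (base x z : ℂ) * f z = (∑ i, (f (x i) + f (-x i))) / (2 * m) := by
  unfold base
  have e1 : ∀ z, (((∑ i, ((if z = x i then (1 : ℝ) else 0) + (if z = -x i then 1 else 0))) /
      (2 * m) : ℝ) : ℂ) * f z =
      (∑ i, ((if z = x i then f z else 0) + (if z = -x i then f z else 0))) / (2 * m) := by
    intro z
    push_cast
    rw [div_mul_eq_mul_div, Finset.sum_mul]
    congr 1
    refine Finset.sum_congr rfl fun i _ => ?_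
    split_ifs <;> simp
    ring
  simp only [e1]
  rw [← Finset.sum_div, Finset.sum_comm]
  congr 1
  refine Finset.sum_congr rfl fun i _ => ?_
  rw [Finset.sum_add_distrib]
  simp

lemma base_nonneg {m : ℕ} (x : Fin m → ZMod n) (z : ZMod n) : 0 ≤ base x z := by
  unfold base
  refine div_nonneg (Finset.sum_nonneg fun i _ => ?_) (by positivity)
  split_ifs <;> norm_num

lemma isProb_base {m : ℕ} (hm : 0 < m) (x : Fin m → ZMod n) : IsProb (base x) := by
  refine ⟨base_nonneg x, ?_⟩
  have h := base_sum x (fun _ => 1)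
  simp only [mul_one, Finset.sum_const, Finset.card_univ, Fintype.card_fin, nsmul_eq_mul] at h
  have hm' : (m : ℂ) ≠ 0 := by exact_mod_cast hm.ne'
  have h2 : ((∑ z, base x z : ℝ) : ℂ) = 1 := by
    push_cast
    rw [h]
    field_simp
    norm_num
  exact_mod_cast h2

lemma base_symm {m : ℕ} (x : Fin m → ZMod n) (z : ZMod n) : base x (-z) = base x z := by
  unfold base
  congr 1
  refine Finset.sum_congr rfl fun i _ => ?_
  simp only [neg_eq_iff_eq_neg (a := z), neg_neg]
  rw [add_comm]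

lemma base_supp {m : ℕ} (x : Fin m → ZMod n) :
    ∃ S : Finset (ZMod n), S.card ≤ 2 * m ∧ ∀ z, z ∉ S → base x z = 0 := by
  classical
  refine ⟨(univ.image x) ∪ (univ.image fun i => -x i), ?_, fun z hz => ?_⟩
  · refine (Finset.card_union_le _ _).trans ?_
    have h1 : (univ.image x).card ≤ m := by
      simpa using Finset.card_image_le (s := (univ : Finset (Fin m))) (f := x)
    have h2 : (univ.image fun i => -x i).card ≤ m := by
      simpa using Finset.card_image_le (s := (univ : Finset (Fin m))) (f := fun i => -x i)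
    omega
  · rw [Finset.mem_union, not_or] at hz
    unfold base
    rw [Finset.sum_eq_zero, zero_div]
    intro i _
    have h1 : z ≠ x i := fun h => hz.1 (Finset.mem_image.2 ⟨i, mem_univ i, h.symm⟩)
    have h2 : z ≠ -x i := fun h => hz.2 (Finset.mem_image.2 ⟨i, mem_univ i, h.symm⟩)
    rw [if_neg h1, if_neg h2, add_zero]

lemma hat_base {m : ℕ} (x : Fin m → ZMod n) (j : ZMod n) :
    hat (base x) j = ((∑ i, c j (x i)) / m : ℝ) := by
  rw [hat_eq, base_sum]
  have e1 : ∀ i, (ZMod.stdAddChar (x i * j) : ℂ) + ZMod.stdAddChar (-x i * j) =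
      2 * (c j (x i) : ℂ) := by
    intro i
    have h1 : (ZMod.stdAddChar (-x i * j) : ℂ) = (starRingEnd ℂ) (ZMod.stdAddChar (x i * j)) := by
      rw [neg_mul, AddChar.map_neg_eq_conj]
    rw [h1, Complex.add_conj]
    push_cast
    rfl
  simp only [e1]
  rw [← Finset.mul_sum]
  push_cast
  rw [mul_div_mul_left _ _ (two_ne_zero)]

/-- number of steps -/
noncomputable def mm (n : ℕ) : ℕ := ⌈8 * Real.log (2 * n)⌉₊

lemma mm_pos (h2 : 2 ≤ n) : 0 < mm n := by
  unfold mm
  rw [Nat.ceil_pos]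
  have : (1 : ℝ) < 2 * n := by
    have : (2 : ℝ) ≤ n := by exact_mod_cast h2
    linarith
  have := Real.log_pos this
  positivity

theorem exists_base (h2 : 2 ≤ n) : ∃ μ : ZMod n → ℝ, IsProb μ ∧ (∀ z, μ (-z) = μ z) ∧
    (∃ S : Finset (ZMod n), S.card ≤ 2 * mm n ∧ ∀ z, z ∉ S → μ z = 0) ∧
    ∀ j, j ≠ 0 → ‖hat μ j‖ ≤ 1 / 2 := by
  obtain ⟨L, hL, hS⟩ := exists_points (n := n) (mm n)
  set x : Fin L.length → ZMod n := fun i => L[i.1] with hx
  have hm : 0 < L.length := by rw [hL]; exact mm_pos h2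
  refine ⟨base x, isProb_base hm x, base_symm x, ?_, fun j hj => ?_⟩
  · obtain ⟨S, h, h'⟩ := base_supp x
    exact ⟨S, by rwa [hL] at h, h'⟩
  · rw [hat_base]
    have e1 : ∑ i, c j (x i) = (L.map (c j)).sum := Fin.sum_univ_fun_getElem L (c j)
    rw [e1, Complex.norm_real, Real.norm_eq_abs, abs_div, Nat.abs_cast]
    have hm' : (0 : ℝ) < L.length := by exact_mod_cast hm
    rw [div_le_iff₀ hm']
    refine (hS j hj).trans ?_
    have h3 : 8 * Real.log (2 * n) ≤ mm n := Nat.le_ceil _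
    rw [hL]
    linarith

/-- the time up to which the base walk is far from uniform -/
noncomputable def TT (n : ℕ) : ℕ := Nat.log (2 * mm n) (Nat.sqrt n)

lemma tv_base_lower (h2 : 2 ≤ n) (μ : ZMod n → ℝ) (h : IsProb μ) (S : Finset (ZMod n))
    (hc : S.card ≤ 2 * mm n) (hS : ∀ z, z ∉ S → μ z = 0) (t : ℕ) (ht : t ≤ TT n) :
    1 - 1 / Real.sqrt n ≤ tv μ t := by
  have hn := n_pos (n := n)
  refine le_trans ?_ (tv_lower μ h S hS t)
  have hs : Nat.sqrt n ≠ 0 := by
    rw [Ne, Nat.sqrt_eq_zero]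
    omega
  have h3 : (2 * mm n) ^ t ≤ Nat.sqrt n := Nat.pow_le_of_le_log hs ht
  have h4 : ((S.card : ℝ)) ^ t ≤ Real.sqrt n := by
    calc ((S.card : ℝ)) ^ t ≤ ((2 * mm n : ℕ) : ℝ) ^ t :=
          pow_le_pow_left₀ (by positivity) (by exact_mod_cast hc) t
      _ ≤ (Nat.sqrt n : ℝ) := by exact_mod_cast h3
      _ ≤ Real.sqrt n := Real.nat_sqrt_le_real_sqrt
  have h5 : (S.card : ℝ) ^ t / n ≤ 1 / Real.sqrt n := by
    rw [div_le_div_iff₀ hn (Real.sqrt_pos.2 hn), one_mul]
    calc (S.card : ℝ) ^ t * Real.sqrt n ≤ Real.sqrt n * Real.sqrt n :=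
          mul_le_mul_of_nonneg_right h4 (Real.sqrt_nonneg _)
      _ = n := Real.mul_self_sqrt hn.le
  linarith

lemma TT_tendsto : Tendsto TT atTop atTop := by
  rw [tendsto_atTop]
  intro M
  have h1 : ∀ᶠ x : ℝ in atTop, Real.log x ^ (2 * M) ≤ (1 / 40 ^ (2 * M)) * x := by
    have := (Real.isLittleO_pow_log_id_atTop (n := 2 * M)).def
      (show (0 : ℝ) < 1 / 40 ^ (2 * M) by positivity)
    filter_upwards [this, eventually_ge_atTop (1 : ℝ)] with x hx hx1
    have h0 : 0 ≤ Real.log x := Real.log_nonneg hx1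
    rw [Real.norm_eq_abs, abs_of_nonneg (by positivity), id, Real.norm_eq_abs,
      abs_of_nonneg (by linarith)] at hx
    exact hx
  have h2 := tendsto_natCast_atTop_atTop (R := ℝ) |>.eventually h1
  have h3 : ∀ᶠ n : ℕ in atTop, (1 : ℝ) ≤ Real.log n := by
    have := (Real.tendsto_log_atTop.comp (tendsto_natCast_atTop_atTop (R := ℝ))).eventually_ge_atTop 1
    exact this
  filter_upwards [h2, h3, eventually_ge_atTop 2] with n hn hl hn2
  unfold TT
  have hn2' : (2 : ℝ) ≤ n := by exact_mod_cast hn2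
  have hs : Nat.sqrt n ≠ 0 := by
    rw [Ne, Nat.sqrt_eq_zero]
    omega
  have hmm : (mm n : ℝ) ≤ 20 * Real.log n := by
    have h4 : (mm n : ℝ) < 8 * Real.log (2 * n) + 1 := by
      refine Nat.ceil_lt_add_one ?_
      have := Real.log_nonneg (show (1 : ℝ) ≤ 2 * n by linarith)
      positivity
    have h5 : Real.log (2 * n) ≤ 2 * Real.log n := by
      rw [Real.log_mul (by norm_num) (by linarith)]
      have := Real.log_le_log (by norm_num) hn2'
      linarith
    linarith
  have : NeZero n := ⟨by omega⟩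
  have hmpos : 0 < mm n := mm_pos hn2
  rw [Nat.le_log_iff_pow_le (by omega) hs, Nat.le_sqrt']
  have h6 : (((2 * mm n : ℕ) : ℝ)) ^ (2 * M) ≤ n := by
    calc (((2 * mm n : ℕ) : ℝ)) ^ (2 * M) ≤ (40 * Real.log n) ^ (2 * M) := by
          refine pow_le_pow_left₀ (by positivity) ?_ _
          push_cast
          linarith
      _ = 40 ^ (2 * M) * Real.log n ^ (2 * M) := by rw [mul_pow]
      _ ≤ 40 ^ (2 * M) * ((1 / 40 ^ (2 * M)) * n) :=
          mul_le_mul_of_nonneg_left hn (by positivity)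
      _ = n := by
          field_simp
  have h7 : (2 * mm n) ^ (2 * M) ≤ n := by exact_mod_cast h6
  rwa [← pow_mul, mul_comm M 2]

end Pool.Agent.V5helper98.Cyc3
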