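import Pool.Agent.V5helper98.Cyc3

/-! Mixing times of the mixtures. -/

set_option autoImplicit false
open Finset Filter Topology

namespace Pool.Agent.V5helper98.Cyc4

open Pool.Agent.V5helper98.CycDefs Pool.Agent.V5helper98.Cyc1 Pool.Agent.V5helper98.Cyc2
  Pool.Agent.V5helper98.Cyc3

section one

variable {n : ℕ} [NeZero n]

lemma tmix_le (e : ℝ) (h0 : 0 < e) (h1 : e < 1) (μ : ZMod n → ℝ) (h : IsProb μ)
    (d : ℝ) (hd0 : 0 < d) (hd1 : d < 1) :
    tv (mix e μ) (tmix (mix e μ) d) ≤ d ∧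
      (-Real.log (1 - e)) * (tmix (mix e μ) d : ℝ) ≤ -Real.log d + -Real.log (1 - e) := by
  have hq : 0 < 1 - e := by linarith
  have ha : 0 < -Real.log (1 - e) := by
    have := Real.log_neg hq (by linarith)
    linarith
  set a := -Real.log (1 - e) with hadef
  have hld : 0 < -Real.log d := by
    have := Real.log_neg hd0 hd1
    linarith
  set t := ⌈(-Real.log d) / a⌉₊ with ht
  have h2 : tv (mix e μ) t ≤ d := by
    rw [tv_mix e h1.le μ h]
    have h3 : (1 - e) ^ t ≤ d := by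
      have h4 : Real.log ((1 - e) ^ t) ≤ Real.log d := by
        rw [Real.log_pow]
        have h5 : (-Real.log d) / a ≤ t := Nat.le_ceil _
        rw [div_le_iff₀ ha] at h5
        have : Real.log (1 - e) = -a := by rw [hadef]; ring
        rw [this]
        linarith
      exact (Real.log_le_log_iff (pow_pos hq t) hd0).1 h4
    calc (1 - e) ^ t * tv μ t ≤ (1 - e) ^ t * 1 :=
          mul_le_mul_of_nonneg_left (tv_le_one μ h t) (pow_pos hq t).le
      _ ≤ d := by linarith
  have hne : {t : ℕ | tv (mix e μ) t ≤ d}.Nonempty := ⟨t, h2⟩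
  refine ⟨Nat.sInf_mem hne, ?_⟩
  have h3 : tmix (mix e μ) d ≤ t := Nat.sInf_le h2
  have h4 : (t : ℝ) < (-Real.log d) / a + 1 := Nat.ceil_lt_add_one (by positivity)
  have h5 : ((tmix (mix e μ) d : ℕ) : ℝ) ≤ t := by exact_mod_cast h3
  calc a * (tmix (mix e μ) d : ℝ) ≤ a * ((-Real.log d) / a + 1) :=
        mul_le_mul_of_nonneg_left (h5.trans h4.le) ha.le
    _ = -Real.log d + a := by field_simp

lemma le_tmix (e : ℝ) (h0 : 0 < e) (h1 : e < 1) (μ : ZMod n → ℝ) (h : IsProb μ)
    (d : ℝ) (hd0 : 0 < d) (hd1 : d < 1) (T : ℕ) (s : ℝ) (hs : 0 < s)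
    (hT : ∀ t ≤ T, s ≤ tv μ t) :
    min ((-Real.log (1 - e)) * T) (-Real.log d + Real.log s) ≤
      (-Real.log (1 - e)) * (tmix (mix e μ) d : ℝ) := by
  have hq : 0 < 1 - e := by linarith
  have ha : 0 < -Real.log (1 - e) := by
    have := Real.log_neg hq (by linarith)
    linarith
  obtain ⟨h2, -⟩ := tmix_le e h0 h1 μ h d hd0 hd1
  set τ := tmix (mix e μ) d with hτ
  rcases le_or_gt τ T with hle | hgt
  · refine (min_le_right _ _).trans ?_
    rw [tv_mix e h1.le μ h] at h2
    have h3 : (1 - e) ^ τ * s ≤ d :=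
      (mul_le_mul_of_nonneg_left (hT τ hle) (pow_pos hq τ).le).trans h2
    have h4 : Real.log ((1 - e) ^ τ * s) ≤ Real.log d :=
      Real.log_le_log (mul_pos (pow_pos hq τ) hs) h3
    rw [Real.log_mul (pow_pos hq τ).ne' hs.ne', Real.log_pow] at h4
    linarith
  · refine (min_le_left _ _).trans ?_
    have : (T : ℝ) ≤ τ := by exact_mod_cast hgt.le
    exact mul_le_mul_of_nonneg_left this ha.le

lemma trel_bound (h2 : 2 ≤ n) (e : ℝ) (h0 : 0 < e) (h1 : e < 1) (μ : ZMod n → ℝ)
    (hh : ∀ j, j ≠ 0 → ‖hat μ j‖ ≤ 1 / 2) : 0 ≤ trel (mix e μ) ∧ trel (mix e μ) ≤ 2 := by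
  have hgap : 1 / 2 ≤ gap (mix e μ) := by
    unfold gap
    have : Nonempty {j : ZMod n // j ≠ 0} := by
      have : Fact (1 < n) := ⟨by omega⟩
      exact ⟨⟨1, one_ne_zero⟩⟩
    have : (⨆ j : {j : ZMod n // j ≠ 0}, ‖hat (mix e μ) j‖) ≤ 1 / 2 := by
      refine ciSup_le fun j => ?_
      rw [hat_mix e μ j j.2, norm_mul, Complex.norm_real, Real.norm_eq_abs,
        abs_of_nonneg (by linarith)]
      have := hh j j.2
      have h3 : 0 ≤ ‖hat μ j‖ := norm_nonneg _
      nlinarith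
    linarith
  unfold trel
  constructor
  · positivity
  · rw [div_le_iff₀ (by linarith)]
    linarith

end one

section seq

variable (n : ℕ → ℕ) [∀ k, NeZero (n k)]

/-- The key asymptotics. -/
lemma tmix_tendsto (μ : ∀ k, ZMod (n k) → ℝ) (h : ∀ k, IsProb (μ k)) (e : ℕ → ℝ)
    (h0 : ∀ k, 0 < e k) (h1 : ∀ k, e k < 1) (he : Tendsto e atTop (𝓝 0))
    (T : ℕ → ℕ) (hT : Tendsto (fun k => e k * T k) atTop atTop)
    (s : ℕ → ℝ) (hs : Tendsto s atTop (𝓝 1))
    (hsT : ∀ k, ∀ t ≤ T k, s k ≤ tv (μ k) t) (d : ℝ) (hd0 : 0 < d) (hd1 : d < 1) :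
    Tendsto (fun k => (-Real.log (1 - e k)) * (tmix (mix (e k) (μ k)) d : ℝ)) atTop
      (𝓝 (-Real.log d)) := by
  have hloge : Tendsto (fun k => -Real.log (1 - e k)) atTop (𝓝 0) := by
    have h2 : Tendsto (fun k => 1 - e k) atTop (𝓝 1) := by
      have := he.const_sub 1
      simpa using this
    have h3 := (Real.continuousAt_log (one_ne_zero)).tendsto.comp h2
    rw [Real.log_one] at h3
    simpa using h3.neg
  have hup : Tendsto (fun k => -Real.log d + -Real.log (1 - e k)) atTop (𝓝 (-Real.log d)) := by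
    simpa using hloge.const_add (-Real.log d)
  have hlow1 : Tendsto (fun k => -Real.log d + Real.log (s k)) atTop (𝓝 (-Real.log d)) := by
    have h3 := (Real.continuousAt_log (one_ne_zero)).tendsto.comp hs
    rw [Real.log_one] at h3
    simpa using h3.const_add (-Real.log d)
  have hT' : Tendsto (fun k => (-Real.log (1 - e k)) * T k) atTop atTop := by
    refine tendsto_atTop_mono (fun k => ?_) hT
    refine mul_le_mul_of_nonneg_right ?_ (Nat.cast_nonneg _)
    have := Real.log_le_sub_one_of_pos (show 0 < 1 - e k by linarith [h1 k])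
    linarith
  have hev : ∀ᶠ k in atTop, -Real.log d + Real.log (s k) ≤
      (-Real.log (1 - e k)) * (tmix (mix (e k) (μ k)) d : ℝ) := by
    have e1 : ∀ᶠ k in atTop, -Real.log d + Real.log (s k) < -Real.log d + 1 :=
      hlow1.eventually_lt_const (by linarith)
    have e2 := hT'.eventually_ge_atTop (-Real.log d + 1)
    have e3 : ∀ᶠ k in atTop, 0 < s k := hs.eventually_const_lt one_pos
    filter_upwards [e1, e2, e3] with k k1 k2 k3
    have := le_tmix (e k) (h0 k) (h1 k) (μ k) (h k) d hd0 hd1 (T k) (s k) k3 (hsT k)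
    rwa [min_eq_right (by linarith)] at this
  refine tendsto_of_tendsto_of_tendsto_of_le_of_le' hlow1 hup hev ?_
  exact Eventually.of_forall fun k => (tmix_le (e k) (h0 k) (h1 k) (μ k) (h k) d hd0 hd1).2

end seq

end Pool.Agent.V5helper98.Cyc4
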